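import Pool.Agent.Helper31.TW.St3

set_option autoImplicit false

/-!
# Module NRM of project TW: normalisation of the forms
-/

namespace Pool.Agent.Helper79.TW

open Pool.Agent.Helper31.TW

variable {n : ℕ}

theorem dot_add (α x y : Fin n → ℤ) : dot α (x + y) = dot α x + dot α y := by
  simp only [dot, Pi.add_apply, mul_add, Finset.sum_add_distrib]

theorem dot_smul (α x : Fin n → ℤ) (c : ℤ) : dot α (c • x) = c * dot α x := by
  simp only [dot, Pi.smul_apply, smul_eq_mul, Finset.mul_sum]
  exact Finset.sum_congr rfl fun i _ => by ring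

theorem smul_dot (α x : Fin n → ℤ) (c : ℤ) : dot (c • α) x = c * dot α x := by
  simp only [dot, Pi.smul_apply, smul_eq_mul, Finset.mul_sum]
  exact Finset.sum_congr rfl fun i _ => by ring

theorem dot_sub (α x y : Fin n → ℤ) : dot α (x - y) = dot α x - dot α y := by
  simp only [dot, Pi.sub_apply, mul_sub, Finset.sum_sub_distrib]

theorem dot_single (α : Fin n → ℤ) (i : Fin n) : dot α (Pi.single i 1) = α i := by
  classical
  rw [dot, Finset.sum_eq_single i]
  · rw [Pi.single_eq_same, mul_one]
  · intro j _ h
    rw [Pi.single_eq_of_ne h, mul_zero]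
  · intro h
    exact absurd (Finset.mem_univ i) h

/-- the form as a linear map -/
def dl (α : Fin n → ℤ) : (Fin n → ℤ) →ₗ[ℤ] ℤ where
  toFun := dot α
  map_add' := dot_add α
  map_smul' c x := dot_smul α x c

theorem prim (α : Fin n → ℤ) (h : α ≠ 0) : ∃ (g : ℤ) (β u : Fin n → ℤ), α = g • β ∧
    dot β u = 1 := by
  obtain ⟨g, hg⟩ := (IsPrincipalIdealRing.principal (LinearMap.range (dl α))).principal
  have h1 : ∀ i, ∃ c : ℤ, c * g = α i := by
    intro i
    have : α i ∈ LinearMap.range (dl α) := ⟨Pi.single i 1, dot_single α i⟩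
    rw [hg] at this
    exact Ideal.mem_span_singleton'.1 this
  choose β hβ using h1
  have hab : α = g • β := by
    funext i
    rw [Pi.smul_apply, smul_eq_mul, mul_comm, hβ]
  have h2 : g ∈ LinearMap.range (dl α) := by
    rw [hg]
    exact Submodule.mem_span_singleton_self g
  obtain ⟨u, hu⟩ := h2
  have hg0 : g ≠ 0 := by
    rintro rfl
    exact h (by rw [hab, zero_smul])
  refine ⟨g, β, u, hab, ?_⟩
  change dot α u = g at hu
  rw [hab, smul_dot] at hu
  exact mul_left_cancel₀ hg0 (by rw [hu, mul_one])

theorem prop_of (α β v : Fin n → ℤ) (hv : dot β v = 1) (h : ∀ w, dot β w = 0 → dot α w = 0) :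
    α = dot α v • β := by
  funext i
  have h1 := h (Pi.single i 1 - dot β (Pi.single i 1) • v) (by
    rw [dot_sub, dot_smul, hv, mul_one, sub_self])
  rw [dot_sub, dot_smul, dot_single, dot_single] at h1
  rw [Pi.smul_apply, smul_eq_mul]
  linarith

theorem hNRM : StNRM := by
  classical
  intro n A
  induction A using Finset.induction_on with
  | empty => exact ⟨∅, ⟨by simp, by simp⟩, by simp⟩
  | insert α A _ ih =>
    obtain ⟨𝓐, hN, hA⟩ := ih
    by_cases h0 : α = 0
    · refine ⟨𝓐, hN, fun γ hγ => ?_⟩
      rcases Finset.mem_insert.1 hγ with rfl | h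
      · exact Or.inl h0
      · exact hA γ h
    obtain ⟨g, α', u, hα, hu⟩ := prim α h0
    by_cases hex : ∃ β ∈ 𝓐, (∀ w, dot β w = 0 → dot α' w = 0) ∨ ∀ w, dot α' w = 0 → dot β w = 0
    · obtain ⟨β, hβ, hc⟩ := hex
      obtain ⟨v, hv⟩ := hN.1 β hβ
      have key : α' = dot α' v • β := by
        rcases hc with hc | hc
        · exact prop_of α' β v hv hc
        · have h1 := prop_of β α' u hu hc
          have h2 : dot β u * dot α' v = 1 := by
            rw [← smul_dot, ← h1, hv]
          calc α' = (dot β u * dot α' v) • α' := by rw [h2, one_smul]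
            _ = dot α' v • (dot β u • α') := by rw [smul_smul, mul_comm]
            _ = dot α' v • β := by rw [← h1]
      refine ⟨𝓐, hN, fun γ hγ => ?_⟩
      rcases Finset.mem_insert.1 hγ with rfl | h
      · refine Or.inr ⟨β, hβ, g * dot α' v, ?_⟩
        rw [mul_smul, ← key]
        exact hα
      · exact hA γ h
    · push Not at hex
      refine ⟨insert α' 𝓐, ⟨?_, ?_⟩, ?_⟩
      · intro γ hγ
        rcases Finset.mem_insert.1 hγ with rfl | h
        · exact ⟨u, hu⟩
        · exact hN.1 γ h
      · intro γ hγ δ hδ hne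
        rcases Finset.mem_insert.1 hγ with h | h <;> rcases Finset.mem_insert.1 hδ with h' | h'
        · exact absurd (h.trans h'.symm) hne
        · subst h
          exact (hex δ h').2
        · subst h'
          exact (hex γ h).1
        · exact hN.2 γ h δ h' hne
      · intro γ hγ
        rcases Finset.mem_insert.1 hγ with rfl | h
        · exact Or.inr ⟨α', Finset.mem_insert_self _ _, g, hα⟩
        · rcases hA γ h with h | ⟨β, hβ, c, hc⟩
          · exact Or.inl h
          · exact Or.inr ⟨β, Finset.mem_insert_of_mem hβ, c, hc⟩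

end Pool.Agent.Helper79.TW
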